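import Pool.Agent.N977.P.Stm3

/-!
Project NSP (helper977): bounded solutions have bounded gradients in `L²`.
-/

set_option autoImplicit false

open MeasureTheory Set Filter Topology
open scoped ContDiff ComplexConjugate

namespace Pool.Agent.N457.NSP

open H459R3.NS Pool.Agent.N977.Q Pool.Agent.N977.S Pool.Agent.N977.P
open Pool.Agent.N977.K (SolK cmp)

section deriv

variable {ν T : ℝ} {u : ℝ → V → V} {p : ℝ → V → ℝ} {K : (V → V) → (V → V) → V → V}

theorem dtK (h : SolK ν T K u p) {t : ℝ} (ht : t ∈ Ioo 0 T) (i : Fin 3) (x : V) :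
    dt (fun s y => u s y i) t x = ν * lap (fun y => u t y i) x
      - conv (fun i y => u t y i) i x - pd i (p t) x + K (u t) (u t) x i :=
  (sol_hasDerivAt h ht i x).deriv

theorem sp_dtK (hK : ∀ u v, SPV u → SPV v → SPV (K u v)) (h : SolK ν T K u p) {t : ℝ}
    (ht : t ∈ Ioo 0 T) (i : Fin 3) : SP (dt (fun s y => u s y i) t) where
  smooth := contDiff_dt (f := fun s y => u s y i) (smooth_c h i) ht
  per := fun j x => by
    have hI : t ∈ Ico 0 T := ⟨ht.1.le, ht.2⟩
    have hU : ∀ i, SP (fun y => u t y i) := fun i => sol_sp h hI i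
    have hUs : SPV (u t) := sp_spv hU
    rw [dtK h ht, dtK h ht, (hU i).lap.per j x,
      (sp_conv (v := fun i y => u t y i) hU i).per j x,
      ((sol_sp_p h hI).pd i).per j x, (hK _ _ hUs hUs).2 j x]

theorem enst_deriv (hK : ∀ u v, SPV u → SPV v → SPV (K u v)) (h : SolK ν T K u p) {t : ℝ}
    (ht : t ∈ Ioo 0 T) : HasDerivAt (fun s => enstrophy (u s))
      (-(2 * ν * palin (u t))
        + 2 * (∑ i, ∫ x in cube, lap (fun y => u t y i) x * conv (fun i y => u t y i) i x)
        - 2 * ∑ i, ∫ x in cube, K (u t) (u t) x i * lap (fun y => u t y i) x) t := by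
  have hI : t ∈ Ico 0 T := ⟨ht.1.le, ht.2⟩
  set v : Fin 3 → V → ℝ := fun i y => u t y i with hv
  have hsp : ∀ i, SP (v i) := fun i => sol_sp h hI i
  have hUs : SPV (u t) := sp_spv hsp
  have hKs := hK _ _ hUs hUs
  have hdiv : ∀ x, ∑ i, pd i (v i) x = 0 := h.divfree t hI
  have h1 : ∀ i j, HasDerivAt (fun s => ∫ x in cube, pd j (fun y => u s y i) x ^ 2)
      (2 * ∫ x in cube, pd j (v i) x * pd j (dt (fun s y => u s y i) t) x) t := by
    intro i j
    have hG : ContDiffOn ℝ ∞ (fun z : ℝ × V => pd j (fun y => u z.1 y i) z.2)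
        (Ico 0 T ×ˢ univ) := contDiffOn_pd (f := fun s y => u s y i) (smooth_c h i) j
    have hG1 : ContDiffOn ℝ 1 (fun z : ℝ × V => pd j (fun y => u z.1 y i) z.2)
        (Ioo 0 T ×ˢ univ) :=
      mono_Ioo (f := fun s x => pd j (fun y => u s y i) x) hG (by norm_cast)
    have hF : ContDiffOn ℝ 1 (fun z : ℝ × V => pd j (fun y => u z.1 y i) z.2 ^ 2)
        (Ioo 0 T ×ˢ univ) := hG1.pow 2
    have key := hasDerivAt_int (F := fun s x => pd j (fun y => u s y i) x ^ 2) hF ht
    refine key.congr_deriv ?_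
    rw [← integral_const_mul]
    congr 1
    funext x
    have h2 : HasDerivAt (fun s => pd j (fun y => u s y i) x)
        (pd j (dt (fun s y => u s y i) t) x) t := by
      have h3 := hasDerivAt_slice (F := fun s x => pd j (fun y => u s y i) x) hG1 ht x
      have h4 := dt_pd (f := fun s y => u s y i) (smooth_c h i) ht j x
      rw [H459R3.NS.dt_eq (f := fun s => pd j (fun y => u s y i)) hG ht x] at h4
      rwa [h4] at h3
    have h3 : HasDerivAt (fun s => pd j (fun y => u s y i) x ^ 2) _ t := h2.pow 2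
    rw [h3.deriv]
    simp only [hv]
    push_cast
    ring
  have h2 : HasDerivAt (fun s => enstrophy (u s))
      (∑ i, ∑ j, 2 * ∫ x in cube, pd j (v i) x * pd j (dt (fun s y => u s y i) t) x) t :=
    HasDerivAt.fun_sum fun i _ => HasDerivAt.fun_sum fun j _ => h1 i j
  refine h2.congr_deriv ?_
  have e0 : ∀ i, ∑ j, 2 * ∫ x in cube, pd j (v i) x * pd j (dt (fun s y => u s y i) t) x
      = -2 * ∫ x in cube, lap (v i) x * dt (fun s y => u s y i) t x := by
    intro i
    rw [← Finset.mul_sum, int_lap_mul (hsp i) (sp_dtK hK h ht i)]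
    ring
  simp_rw [e0]
  have e1 : ∀ i, ∫ x in cube, lap (v i) x * dt (fun s y => u s y i) t x
      = ν * (∫ x in cube, lap (v i) x ^ 2) - (∫ x in cube, lap (v i) x * conv v i x)
        - (∫ x in cube, lap (v i) x * pd i (p t) x)
        + ∫ x in cube, K (u t) (u t) x i * lap (v i) x := by
    intro i
    have e : ∀ x, lap (v i) x * dt (fun s y => u s y i) t x
        = ν * (lap (v i) x ^ 2) - lap (v i) x * conv v i x - lap (v i) x * pd i (p t) x
          + K (u t) (u t) x i * lap (v i) x := by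
      intro x
      rw [dtK h ht]
      ring
    simp_rw [e]
    have i1 : IntegrableOn (fun x => ν * (lap (v i) x ^ 2)) cube := by
      have hc := (hsp i).lap.cont
      exact integrableOn_cube (continuous_const.mul (hc.pow 2))
    have i2 : IntegrableOn (fun x => lap (v i) x * conv v i x) cube :=
      ((hsp i).lap.mul (sp_conv hsp i)).int
    have i3 : IntegrableOn (fun x => lap (v i) x * pd i (p t) x) cube :=
      ((hsp i).lap.mul ((sol_sp_p h hI).pd i)).int
    have i4 : IntegrableOn (fun x => K (u t) (u t) x i * lap (v i) x) cube :=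
      ((spv_sp hKs i).mul (hsp i).lap).int
    have i12 : IntegrableOn (fun x => ν * (lap (v i) x ^ 2) - lap (v i) x * conv v i x) cube :=
      i1.sub i2
    have i123 : IntegrableOn (fun x => ν * (lap (v i) x ^ 2) - lap (v i) x * conv v i x
      - lap (v i) x * pd i (p t) x) cube := i12.sub i3
    rw [integral_add i123 i4, integral_sub i12 i3, integral_sub i1 i2, integral_const_mul]
  simp_rw [e1]
  rw [← Finset.mul_sum, Finset.sum_add_distrib, Finset.sum_sub_distrib, Finset.sum_sub_distrib,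
    int_lap_press hsp hdiv (sol_sp_p h hI), ← Finset.mul_sum]
  unfold palin
  ring

theorem enst_cont (h : SolK ν T K u p) :
    ContinuousOn (fun s => enstrophy (u s)) (Ico 0 T) := by
  unfold enstrophy
  refine continuousOn_finsetSum _ fun i _ => continuousOn_finsetSum _ fun j _ => ?_
  exact continuousOn_int (F := fun s x => pd j (fun y => u s y i) x ^ 2)
    ((contDiffOn_pd (f := fun s y => u s y i) (smooth_c h i) j).continuousOn.pow 2)

end deriv

/-! ### Parseval -/

theorem lap_pars {f : V → ℝ} (hf : SP f) :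
    (Summable fun k => ((2 * Real.pi) ^ 2 * len k ^ 2 * ‖fr f k‖) ^ 2) ∧
    ∫ x in cube, lap f x ^ 2 = ∑' k, ((2 * Real.pi) ^ 2 * len k ^ 2 * ‖fr f k‖) ^ 2 := by
  have e : ∀ k, ‖fr (lap f) k‖ ^ 2 = ((2 * Real.pi) ^ 2 * len k ^ 2 * ‖fr f k‖) ^ 2 := by
    intro k
    rw [fr_lap hf, norm_mul, ← Complex.ofReal_neg, Complex.norm_real, norm_neg, Real.norm_eq_abs,
      abs_of_nonneg (by positivity)]
  constructor
  · exact (summable_sq (rap_fr hf.lap).summable).congr e
  · rw [← n2_fr hf.lap, n2_sq]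
    exact tsum_congr e

theorem pd_pars {f : V → ℝ} (hf : SP f) :
    (Summable fun k => (2 * Real.pi * len k * ‖fr f k‖) ^ 2) ∧
    ∑ j, ∫ x in cube, pd j f x ^ 2 = ∑' k, (2 * Real.pi * len k * ‖fr f k‖) ^ 2 := by
  have e : ∀ k, ∑ j, ‖fr (pd j f) k‖ ^ 2 = (2 * Real.pi * len k * ‖fr f k‖) ^ 2 := by
    intro k
    have e1 : ∀ j, ‖fr (pd j f) k‖ ^ 2 = (2 * Real.pi) ^ 2 * ‖fr f k‖ ^ 2 * (k j : ℝ) ^ 2 := by
      intro j
      rw [fr_pd hf]
      unfold D
      rw [norm_mul, norm_mul, norm_mul, norm_mul, Complex.norm_I, mul_one, Complex.norm_real,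
        Real.norm_eq_abs, abs_of_pos Real.pi_pos, Complex.norm_ofNat, Complex.norm_intCast,
        mul_pow, mul_pow, sq_abs]
      ring
    simp_rw [e1]
    rw [← Finset.mul_sum, ← len_sq]
    ring
  have hs : ∀ j, Summable fun k => ‖fr (pd j f) k‖ ^ 2 :=
    fun j => summable_sq (rap_fr (hf.pd j)).summable
  constructor
  · exact (summable_sum fun j (_ : j ∈ Finset.univ) => hs j).congr e
  · have h1 : ∀ j, ∫ x in cube, pd j f x ^ 2 = ∑' k, ‖fr (pd j f) k‖ ^ 2 := by
      intro j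
      rw [← n2_fr (hf.pd j), n2_sq]
    simp_rw [h1]
    rw [← Summable.tsum_finsetSum fun j _ => hs j]
    exact tsum_congr e

theorem log_est (a : ℝ) (ha : 0 ≤ a) (η : ℝ) (hη : 0 < η) :
    ∃ C : ℝ, 0 ≤ C ∧ ∀ x : ℝ, 1 ≤ x → (Real.log (2 + x) ^ a) ^ 2 ≤ η * x ^ 2 + C := by
  have h1 := isLittleO_log_rpow_rpow_atTop a one_pos
  have hc : 0 < √η / 3 := by positivity
  have h2 := h1.bound hc
  obtain ⟨X, hX⟩ := Filter.eventually_atTop.1 h2
  refine ⟨(Real.log (2 + max X 1) ^ a) ^ 2, by positivity, ?_⟩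
  intro x hx
  have hlog : 0 ≤ Real.log (2 + x) := Real.log_nonneg (by linarith)
  rcases le_or_gt (max X 1) x with h | h
  · have h3 := hX (2 + x) (by linarith [le_max_left X 1])
    rw [Real.norm_eq_abs, abs_of_nonneg (Real.rpow_nonneg hlog a), Real.rpow_one,
      Real.norm_eq_abs, abs_of_pos (by linarith)] at h3
    have h4 : Real.log (2 + x) ^ a ≤ √η * x := by
      calc Real.log (2 + x) ^ a ≤ √η / 3 * (2 + x) := h3
        _ ≤ √η / 3 * (3 * x) := by gcongr; linarith
        _ = √η * x := by ring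
    have h5 : (Real.log (2 + x) ^ a) ^ 2 ≤ (√η * x) ^ 2 :=
      pow_le_pow_left₀ (Real.rpow_nonneg hlog a) h4 2
    rw [mul_pow, Real.sq_sqrt hη.le] at h5
    have : 0 ≤ (Real.log (2 + max X 1) ^ a) ^ 2 := by positivity
    linarith
  · have h3 : Real.log (2 + x) ^ a ≤ Real.log (2 + max X 1) ^ a := by
      apply Real.rpow_le_rpow hlog _ ha
      apply Real.log_le_log (by linarith)
      linarith
    have h4 := pow_le_pow_left₀ (Real.rpow_nonneg hlog a) h3 2
    have : 0 ≤ η * x ^ 2 := by positivity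
    linarith

theorem wt_est (a : ℝ) (ha : 0 ≤ a) (η : ℝ) (hη : 0 < η) :
    ∃ C : ℝ, 0 ≤ C ∧ ∀ (k : K3) (r : ℝ), 0 ≤ r → (Pool.Agent.N977.Q.wt 1 a k * r) ^ 2
      ≤ η * ((2 * Real.pi) ^ 2 * len k ^ 2 * r) ^ 2 + C * (2 * Real.pi * len k * r) ^ 2 := by
  obtain ⟨C, hC, h⟩ := log_est a ha η hη
  refine ⟨C, hC, ?_⟩
  intro k r hr
  unfold Pool.Agent.N977.Q.wt
  split_ifs with hk
  · rw [zero_mul, zero_pow two_ne_zero]
    positivity
  · have h1 := one_le_len hk
    have h2 := h (len k) h1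
    have hπ : (1 : ℝ) ≤ (2 * Real.pi) ^ 2 := by
      have := Real.pi_gt_three
      nlinarith
    rw [Real.rpow_one]
    calc (len k * Real.log (2 + len k) ^ a * r) ^ 2
        = (len k * r) ^ 2 * (Real.log (2 + len k) ^ a) ^ 2 := by ring
      _ ≤ (len k * r) ^ 2 * (η * len k ^ 2 + C) := by gcongr
      _ = η * (len k ^ 2 * r) ^ 2 * 1 + C * (len k * r) ^ 2 * 1 := by ring
      _ ≤ η * (len k ^ 2 * r) ^ 2 * ((2 * Real.pi) ^ 2) ^ 2 + C * (len k * r) ^ 2 * (2 * Real.pi) ^ 2 := by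
          gcongr
          exact one_le_pow₀ hπ
      _ = _ := by ring

theorem Hn_est (a : ℝ) (ha : 0 ≤ a) (η : ℝ) (hη : 0 < η) : ∃ C : ℝ, 0 ≤ C ∧ ∀ v : V → V, SPV v →
    Hn 1 a v ^ 2 ≤ η * palin v + C * enstrophy v := by
  obtain ⟨C, hC, h⟩ := wt_est a ha η hη
  refine ⟨C, hC, ?_⟩
  intro v hv
  rw [Hn_sq, Summable.tsum_finsetSum fun i _ => wt_summable (spv_sp hv i) 1 a]
  unfold palin enstrophy
  rw [Finset.mul_sum, Finset.mul_sum, ← Finset.sum_add_distrib]
  refine Finset.sum_le_sum fun i _ => ?_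
  obtain ⟨l1, l2⟩ := lap_pars (spv_sp hv i)
  obtain ⟨p1, p2⟩ := pd_pars (spv_sp hv i)
  rw [l2, p2, ← tsum_mul_left, ← tsum_mul_left, ← (l1.mul_left η).tsum_add (p1.mul_left C)]
  exact (wt_summable (spv_sp hv i) 1 a).tsum_le_tsum (fun k => h k _ (norm_nonneg _))
    ((l1.mul_left η).add (p1.mul_left C))

theorem Hn_one {v : V → V} (hv : SPV v) : Hn 1 0 v ^ 2 ≤ enstrophy v := by
  rw [Hn_sq, Summable.tsum_finsetSum fun i _ => wt_summable (spv_sp hv i) 1 0]
  unfold enstrophy
  refine Finset.sum_le_sum fun i _ => ?_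
  obtain ⟨p1, p2⟩ := pd_pars (spv_sp hv i)
  rw [p2]
  refine (wt_summable (spv_sp hv i) 1 0).tsum_le_tsum (fun k => ?_) p1
  unfold Pool.Agent.N977.Q.wt
  split_ifs with hk
  · rw [zero_mul, zero_pow two_ne_zero]
    positivity
  · have h1 := one_le_len hk
    have hπ : (1 : ℝ) ≤ 2 * Real.pi := by
      have := Real.pi_gt_three
      linarith
    rw [Real.rpow_one, Real.rpow_zero, mul_one]
    have h0 : 0 ≤ len k := len_nonneg k
    apply pow_le_pow_left₀ (by positivity)
    calc len k * ‖fr (fun x => v x i) k‖ = 1 * len k * ‖fr (fun x => v x i) k‖ := by ring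
      _ ≤ _ := by gcongr

/-! ### Estimates at a fixed time -/

theorem nrm_lap_le {v : V → V} (hv : SPV v) (i : Fin 3) :
    nrm (lap fun y => v y i) ≤ √(palin v) := by
  unfold nrm
  apply Real.sqrt_le_sqrt
  unfold palin
  exact Finset.single_le_sum (f := fun i => ∫ x in cube, lap (fun y => v y i) x ^ 2)
    (fun i _ => integral_nonneg fun _ => sq_nonneg _) (Finset.mem_univ i)

theorem nrm_pd_le {v : V → V} (hv : SPV v) (i j : Fin 3) :
    nrm (pd j fun y => v y i) ≤ √(enstrophy v) := by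
  unfold nrm
  apply Real.sqrt_le_sqrt
  unfold enstrophy
  have h1 : ∀ i j, 0 ≤ ∫ x in cube, pd j (fun y => v y i) x ^ 2 :=
    fun i j => integral_nonneg fun _ => sq_nonneg _
  calc ∫ x in cube, pd j (fun y => v y i) x ^ 2
      ≤ ∑ j, ∫ x in cube, pd j (fun y => v y i) x ^ 2 :=
        Finset.single_le_sum (f := fun j => ∫ x in cube, pd j (fun y => v y i) x ^ 2)
          (fun j _ => h1 i j) (Finset.mem_univ j)
    _ ≤ _ := Finset.single_le_sum (f := fun i => ∑ j, ∫ x in cube, pd j (fun y => v y i) x ^ 2)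
          (fun i _ => Finset.sum_nonneg fun j _ => h1 i j) (Finset.mem_univ i)

theorem conv_est {v : V → V} (hv : SPV v) {B : ℝ} (hB : ∀ x i, |v x i| ≤ B) :
    |∑ i, ∫ x in cube, lap (fun y => v y i) x * conv (fun i y => v y i) i x|
      ≤ 9 * B * (√(palin v) * √(enstrophy v)) := by
  have hB0 : 0 ≤ B := (abs_nonneg _).trans (hB 0 0)
  have hsp := spv_sp hv
  have h1 : ∀ i, |∫ x in cube, lap (fun y => v y i) x * conv (fun i y => v y i) i x|
      ≤ 3 * B * (√(palin v) * √(enstrophy v)) := by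
    intro i
    have h2 : nrm (conv (fun i y => v y i) i) ≤ 3 * B * √(enstrophy v) := by
      unfold conv
      refine (nrm_sum_le (f := fun j x => v x j * pd j (fun y => v y i) x)
        (fun j => (hsp j).cont.mul ((hsp i).pd j).cont)).trans ?_
      have h3 : ∀ j, nrm (fun x => v x j * pd j (fun y => v y i) x) ≤ B * √(enstrophy v) := by
        intro j
        refine (nrm_mul_le (hsp j).cont ((hsp i).pd j).cont (fun x => hB x j)).trans ?_
        exact mul_le_mul_of_nonneg_left (nrm_pd_le hv i j) hB0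
      calc ∑ j, nrm (fun x => v x j * pd j (fun y => v y i) x)
          ≤ ∑ _j : Fin 3, B * √(enstrophy v) := Finset.sum_le_sum fun j _ => h3 j
        _ = 3 * B * √(enstrophy v) := by
            rw [Finset.sum_const, Finset.card_univ, Fintype.card_fin, nsmul_eq_mul]
            push_cast
            ring
    calc _ ≤ nrm (lap fun y => v y i) * nrm (conv (fun i y => v y i) i) :=
          abs_int_mul_le (hsp i).lap.cont (sp_conv hsp i).cont
      _ ≤ √(palin v) * (3 * B * √(enstrophy v)) :=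
          mul_le_mul (nrm_lap_le hv i) h2 (nrm_nonneg _) (Real.sqrt_nonneg _)
      _ = _ := by ring
  calc _ ≤ ∑ i, |∫ x in cube, lap (fun y => v y i) x * conv (fun i y => v y i) i x| :=
        Finset.abs_sum_le_sum_abs _ _
    _ ≤ ∑ _i : Fin 3, 3 * B * (√(palin v) * √(enstrophy v)) := Finset.sum_le_sum fun i _ => h1 i
    _ = _ := by
        rw [Finset.sum_const, Finset.card_univ, Fintype.card_fin, nsmul_eq_mul]
        push_cast
        ring

theorem lap_spv {v : V → V} (hv : SPV v) : SPV (fun x i => lap (fun y => v y i) x) :=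
  sp_spv fun i => (spv_sp hv i).lap

theorem K_est {p' δ' : ℝ} {K : (V → V) → (V → V) → V → V} (hp' : 0 ≤ p') (hK : LowS 1 p' δ' K)
    {v : V → V} (hv : SPV v) {B : ℝ} (hB : ∀ x i, |v x i| ≤ B) :
    |∑ i, ∫ x in cube, K v v x i * lap (fun y => v y i) x|
      ≤ 5 * |δ'| * B * (Hn 1 p' v * √(palin v)) := by
  have hB0 : 0 ≤ B := (abs_nonneg _).trans (hB 0 0)
  have h1 := hK.b1 v v (fun x i => lap (fun y => v y i) x) hv hv (lap_spv hv) B 1 0 p' 0
    (by norm_num) hp' le_rfl (by ring) hB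
  refine h1.trans ?_
  have h2 : Hn 0 0 (fun x i => lap (fun y => v y i) x) ≤ √(palin v) := by
    apply Real.le_sqrt_of_sq_le
    exact Hn_zero_le (lap_spv hv)
  have h3 : (5 : ℝ) ^ (|(1 : ℝ)| + |(0 : ℝ)|) = 5 := by
    rw [abs_one, abs_zero, add_zero, Real.rpow_one]
  rw [h3]
  have h4 := Hn_nonneg 1 p' v
  have h5 := Hn_nonneg 0 0 (fun x i => lap (fun y => v y i) x)
  calc δ' * 5 * (B * Hn 1 p' v * Hn 0 0 (fun x i => lap (fun y => v y i) x))
      ≤ |δ'| * 5 * (B * Hn 1 p' v * Hn 0 0 (fun x i => lap (fun y => v y i) x)) := by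
        gcongr
        exact le_abs_self _
    _ ≤ |δ'| * 5 * (B * Hn 1 p' v * √(palin v)) := by gcongr
    _ = _ := by ring

theorem h1b : S_H1B := by
  intro p p' δ δ' ν T K u q hp hp' hν hE hS hs ⟨B, hB⟩
  rcases le_or_gt T 0 with hT | hT
  · exact ⟨0, fun t ht => absurd (ht.1.trans_lt ht.2) (not_lt.2 hT)⟩
  have hB0 : 0 ≤ B := (abs_nonneg _).trans (hB 0 ⟨le_rfl, hT⟩ 0 0)
  have hspv : ∀ t ∈ Ico 0 T, SPV (u t) := fun t ht => sp_spv fun i => sol_sp hs ht i
  -- constants
  set b : ℝ := 5 * |δ'| * B with hb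
  have hb0 : 0 ≤ b := by positivity
  obtain ⟨C, hC, hH⟩ := Hn_est p' hp' (ν ^ 2 / (4 * (b ^ 2 + 1))) (by positivity)
  set G : ℝ := 81 * B ^ 2 / ν * 2 + 2 * b ^ 2 * C / ν with hG
  have hG0 : 0 ≤ G := by positivity
  have hdiff : ∀ t ∈ Ioo 0 T, -(2 * ν * palin (u t))
        + 2 * (∑ i, ∫ x in cube, lap (fun y => u t y i) x * conv (fun i y => u t y i) i x)
        - 2 * ∑ i, ∫ x in cube, K (u t) (u t) x i * lap (fun y => u t y i) x
      ≤ G * enstrophy (u t) := by
    intro t ht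
    have hI : t ∈ Ico 0 T := ⟨ht.1.le, ht.2⟩
    have hv := hspv t hI
    have h1 := conv_est hv (hB t hI)
    have h2 := K_est hp' hS hv (hB t hI)
    have h3 := hH (u t) hv
    set P := √(palin (u t)) with hP
    set E := √(enstrophy (u t)) with hE'
    set h := Hn 1 p' (u t) with hh
    have hP2 : P ^ 2 = palin (u t) := Real.sq_sqrt (palin_nonneg _)
    have hE2 : E ^ 2 = enstrophy (u t) := Real.sq_sqrt (enstrophy_nonneg _)
    have hP0 : 0 ≤ P := Real.sqrt_nonneg _
    have hE0 : 0 ≤ E := Real.sqrt_nonneg _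
    have hh0 : 0 ≤ h := Hn_nonneg _ _ _
    rw [← hP2, ← hE2] at h3
    rw [← hP2, ← hE2]
    have h1' := (abs_le.1 h1).2
    have h2' := (abs_le.1 h2).1
    have a1 : 2 * (9 * B * (P * E)) ≤ ν / 2 * P ^ 2 + 81 * B ^ 2 / ν * 2 * E ^ 2 := by
      have : 0 ≤ (ν / 2 * P - 9 * B * E) ^ 2 / (ν / 2) := by positivity
      have e : (ν / 2 * P - 9 * B * E) ^ 2 / (ν / 2)
          = ν / 2 * P ^ 2 + 81 * B ^ 2 / ν * 2 * E ^ 2 - 2 * (9 * B * (P * E)) := by
        field_simp
        ring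
      linarith
    have a2 : 2 * (b * (h * P)) ≤ ν / 2 * P ^ 2 + 2 * b ^ 2 / ν * h ^ 2 := by
      have : 0 ≤ (ν / 2 * P - b * h) ^ 2 / (ν / 2) := by positivity
      have e : (ν / 2 * P - b * h) ^ 2 / (ν / 2)
          = ν / 2 * P ^ 2 + 2 * b ^ 2 / ν * h ^ 2 - 2 * (b * (h * P)) := by
        field_simp
        ring
      linarith
    have a3 : 2 * b ^ 2 / ν * h ^ 2 ≤ ν / 2 * P ^ 2 + 2 * b ^ 2 * C / ν * E ^ 2 := by
      have e1 : 2 * b ^ 2 / ν * h ^ 2
          ≤ 2 * b ^ 2 / ν * (ν ^ 2 / (4 * (b ^ 2 + 1)) * P ^ 2 + C * E ^ 2) := by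
        gcongr
      have e2 : 2 * b ^ 2 / ν * (ν ^ 2 / (4 * (b ^ 2 + 1)) * P ^ 2 + C * E ^ 2)
          = ν / 2 * P ^ 2 * (b ^ 2 / (b ^ 2 + 1)) + 2 * b ^ 2 * C / ν * E ^ 2 := by
        field_simp
        ring
      have e3 : b ^ 2 / (b ^ 2 + 1) ≤ 1 := by
        rw [div_le_one (by positivity)]
        linarith
      have e4 : ν / 2 * P ^ 2 * (b ^ 2 / (b ^ 2 + 1)) ≤ ν / 2 * P ^ 2 * 1 := by
        gcongr
      linarith
    have a4 : 0 ≤ ν * P ^ 2 := by positivity
    rw [hG]
    linarith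
  -- Gronwall
  set y : ℝ → ℝ := fun s => enstrophy (u s) with hy
  have hbd : ∀ t ∈ Ico 0 T, y t ≤ y 0 * Real.exp (G * T) := by
    intro t ht
    have hz : AntitoneOn (fun s => y s * Real.exp (-(G * s))) (Icc 0 t) := by
      have hd : ∀ s ∈ Ioo 0 t, HasDerivAt (fun s => y s * Real.exp (-(G * s)))
          ((-(2 * ν * palin (u s))
            + 2 * (∑ i, ∫ x in cube, lap (fun y => u s y i) x * conv (fun i y => u s y i) i x)
            - 2 * ∑ i, ∫ x in cube, K (u s) (u s) x i * lap (fun y => u s y i) x)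
              * Real.exp (-(G * s)) + y s * (Real.exp (-(G * s)) * (-(G * 1)))) s := by
        intro s hs'
        have h1 := enst_deriv hE.smooth hs ⟨hs'.1, hs'.2.trans ht.2⟩
        have h2 : HasDerivAt (fun s : ℝ => Real.exp (-(G * s))) (Real.exp (-(G * s)) * (-(G * 1))) s :=
          (((hasDerivAt_id s).const_mul G).neg).exp
        exact h1.mul h2
      refine antitoneOn_of_deriv_nonpos (convex_Icc 0 t) ?_ ?_ ?_
      · refine ContinuousOn.mul ?_ (by fun_prop)
        exact (enst_cont hs).mono fun s hs' => ⟨hs'.1, hs'.2.trans_lt ht.2⟩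
      · rw [interior_Icc]
        intro s hs'
        exact (hd s hs').differentiableAt.differentiableWithinAt
      · rw [interior_Icc]
        intro s hs'
        rw [(hd s hs').deriv]
        have h3 := hdiff s ⟨hs'.1, hs'.2.trans ht.2⟩
        have h4 := Real.exp_pos (-(G * s))
        have h5 := mul_le_mul_of_nonneg_right h3 h4.le
        have e : y s * (Real.exp (-(G * s)) * (-(G * 1))) = -(G * enstrophy (u s) * Real.exp (-(G * s))) := by
          rw [hy]
          ring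
        rw [e]
        linarith
    have h1 := hz ⟨le_rfl, ht.1⟩ ⟨ht.1, le_rfl⟩ ht.1
    simp only [mul_zero, neg_zero, Real.exp_zero, mul_one] at h1
    have hy0 : 0 ≤ y 0 := enstrophy_nonneg _
    calc y t = y t * Real.exp (-(G * t)) * Real.exp (G * t) := by
          rw [mul_assoc, ← Real.exp_add, neg_add_cancel, Real.exp_zero, mul_one]
      _ ≤ y 0 * Real.exp (G * t) := by gcongr
      _ ≤ y 0 * Real.exp (G * T) := by
          gcongr
          exact ht.2.le
  refine ⟨√(y 0 * Real.exp (G * T)), fun t ht => ?_⟩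
  apply Real.le_sqrt_of_sq_le
  exact (Hn_one (hspv t ht)).trans (hbd t ht)

end Pool.Agent.N457.NSP
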